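import Mathlib

/-!
# The Brun–Hooley sieve in abstract form

`A` is a finite set, `D p a` says that `a` has to be sifted out by the prime `p`.  The primes
are split into disjoint blocks `P j`, `j ∈ J`.  Elementary symmetric sums, Bonferroni's
inequalities in each block, and Hooley's product inequality give lower and upper bounds.
-/

open Finset

namespace Pool.Agent.Sieve8

variable {α β ι : Type*}

/-- Elementary symmetric sum of degree `k` of the numbers `g p`, `p ∈ P`. -/
def es (k : ℕ) (P : Finset β) (g : β → ℝ) : ℝ := ∑ T ∈ P.powersetCard k, ∏ p ∈ T, g p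

/-- Truncated alternating sum of the elementary symmetric sums. -/
def tr (b : ℕ) (P : Finset β) (g : β → ℝ) : ℝ := ∑ i ∈ range (b + 1), (-1) ^ i * es i P g

/-- Truncated sum of the elementary symmetric sums. -/
def trp (b : ℕ) (P : Finset β) (g : β → ℝ) : ℝ := ∑ i ∈ range (b + 1), es i P g

@[simp] theorem es_zero (P : Finset β) (g : β → ℝ) : es 0 P g = 1 := by simp [es]

@[simp] theorem es_succ_empty (k : ℕ) (g : β → ℝ) : es (k + 1) (∅ : Finset β) g = 0 := by
  simp only [es]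
  rw [Finset.powersetCard_eq_empty.2 (by simp)]
  simp

theorem es_nonneg {k : ℕ} {P : Finset β} {g : β → ℝ} (h : ∀ p ∈ P, 0 ≤ g p) : 0 ≤ es k P g :=
  Finset.sum_nonneg fun _ hT => Finset.prod_nonneg fun p hp =>
    h p ((Finset.mem_powersetCard.1 hT).1 hp)

theorem es_insert [DecidableEq β] {k : ℕ} {P : Finset β} {g : β → ℝ} {q : β} (hq : q ∉ P) :
    es (k + 1) (insert q P) g = es (k + 1) P g + g q * es k P g := by
  unfold es
  rw [Finset.powersetCard_succ_insert hq, Finset.sum_union, Finset.sum_image, Finset.mul_sum]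
  · congr 1
    refine Finset.sum_congr rfl fun T hT => ?_
    rw [Finset.prod_insert]
    exact fun h => hq ((Finset.mem_powersetCard.1 hT).1 h)
  · intro T hT T' hT' h
    have h1 : q ∉ T := fun h => hq ((Finset.mem_powersetCard.1 hT).1 h)
    have h2 : q ∉ T' := fun h => hq ((Finset.mem_powersetCard.1 hT').1 h)
    rw [← Finset.erase_insert h1, ← Finset.erase_insert h2, h]
  · rw [Finset.disjoint_left]
    intro T hT hT'
    obtain ⟨T', _, rfl⟩ := Finset.mem_image.1 hT'
    exact hq ((Finset.mem_powersetCard.1 hT).1 (Finset.mem_insert_self _ _))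

/-- `e_k ≤ (∑ g)^k / k!`. -/
theorem es_le {P : Finset β} {g : β → ℝ} (h : ∀ p ∈ P, 0 ≤ g p) (k : ℕ) :
    es k P g ≤ (∑ p ∈ P, g p) ^ k / k.factorial := by
  classical
  induction P using Finset.induction_on generalizing k with
  | empty =>
    cases k with
    | zero => simp
    | succ k => simp
  | insert q P hq ih =>
    have hP : ∀ p ∈ P, 0 ≤ g p := fun p hp => h p (Finset.mem_insert_of_mem hp)
    have hq0 : 0 ≤ g q := h q (Finset.mem_insert_self _ _)
    have hL : 0 ≤ ∑ p ∈ P, g p := Finset.sum_nonneg hP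
    cases k with
    | zero => simp
    | succ k =>
      rw [es_insert hq, Finset.sum_insert hq]
      set L := ∑ p ∈ P, g p
      have h1 := ih hP (k + 1)
      have h2 := mul_le_mul_of_nonneg_left (ih hP k) hq0
      refine (add_le_add h1 h2).trans ?_
      have hk : ((k + 1).factorial : ℝ) = (k + 1) * k.factorial := by
        rw [Nat.factorial_succ]; push_cast; ring
      have hk0 : (0 : ℝ) < k.factorial := by exact_mod_cast k.factorial_pos
      have h3 : L ^ (k + 1) / ((k + 1).factorial : ℝ) + g q * (L ^ k / (k.factorial : ℝ)) =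
          (L ^ (k + 1) + (k + 1) * L ^ k * g q) / ((k + 1).factorial : ℝ) := by
        rw [hk]
        have : ((k : ℝ) + 1) ≠ 0 := by positivity
        field_simp
      rw [h3]
      refine div_le_div_of_nonneg_right ?_ (by positivity)
      -- (L + x)^(k+1) ≥ L^(k+1) + (k+1) L^k x
      have key : ∀ n : ℕ, L ^ n * L + n * L ^ n * g q + L ^ n * g q ≤ (g q + L) ^ (n + 1) := by
        intro n
        induction n with
        | zero => simp; linarith
        | succ n ihn =>
          have h5 : 0 ≤ (g q + L) := by linarith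
          have h6 := mul_le_mul_of_nonneg_right ihn h5
          have h7 : 0 ≤ L ^ n := pow_nonneg hL n
          have h8 : 0 ≤ (n : ℝ) * L ^ n * g q * g q := by positivity
          have h9 : 0 ≤ L ^ n * g q * g q := by positivity
          calc L ^ (n + 1) * L + ((n + 1 : ℕ) : ℝ) * L ^ (n + 1) * g q + L ^ (n + 1) * g q
              ≤ (L ^ n * L + n * L ^ n * g q + L ^ n * g q) * (g q + L) := by
                push_cast
                ring_nf
                ring_nf at h8 h9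
                nlinarith [h8, h9]
            _ ≤ (g q + L) ^ (n + 1) * (g q + L) := h6
            _ = (g q + L) ^ (n + 1 + 1) := by ring
      have := key k
      calc L ^ (k + 1) + (k + 1) * L ^ k * g q = L ^ k * L + k * L ^ k * g q + L ^ k * g q := by
            ring
        _ ≤ (g q + L) ^ (k + 1) := this

theorem tr_zero (P : Finset β) (g : β → ℝ) : tr 0 P g = 1 := by simp [tr]

theorem tr_succ (b : ℕ) (P : Finset β) (g : β → ℝ) :
    tr (b + 1) P g = tr b P g + (-1) ^ (b + 1) * es (b + 1) P g := by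
  simp [tr, Finset.sum_range_succ]

theorem tr_empty (b : ℕ) (g : β → ℝ) : tr b (∅ : Finset β) g = 1 := by
  induction b with
  | zero => simp [tr]
  | succ b ih => rw [tr_succ, ih]; simp

theorem tr_insert [DecidableEq β] (b : ℕ) {P : Finset β} {g : β → ℝ} {q : β} (hq : q ∉ P) :
    tr (b + 1) (insert q P) g = tr (b + 1) P g - g q * tr b P g := by
  induction b with
  | zero =>
    rw [tr_succ, tr_succ, tr_zero, tr_zero, es_insert hq]
    simp
    ring
  | succ b ih =>
    rw [tr_succ, ih, es_insert hq, tr_succ (b + 1) P, tr_succ b P]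
    ring

/-- Bonferroni's inequalities. -/
theorem bonferroni {P : Finset β} {g : β → ℝ} (h0 : ∀ p ∈ P, 0 ≤ g p) (h1 : ∀ p ∈ P, g p ≤ 1) :
    ∀ b, (Even b → ∏ p ∈ P, (1 - g p) ≤ tr b P g) ∧
      (Odd b → tr b P g ≤ ∏ p ∈ P, (1 - g p)) := by
  classical
  induction P using Finset.induction_on with
  | empty => intro b; simp [tr_empty]
  | insert q P hq ih =>
    have ih' := ih (fun p hp => h0 p (Finset.mem_insert_of_mem hp))
      (fun p hp => h1 p (Finset.mem_insert_of_mem hp))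
    have hq0 : 0 ≤ g q := h0 q (Finset.mem_insert_self _ _)
    have hq1 : g q ≤ 1 := h1 q (Finset.mem_insert_self _ _)
    intro b
    rw [Finset.prod_insert hq]
    cases b with
    | zero =>
      refine ⟨fun _ => ?_, fun h => absurd h (by decide)⟩
      rw [tr_zero]
      have h2 := (ih' 0).1 (by decide)
      rw [tr_zero] at h2
      have h3 : 0 ≤ ∏ p ∈ P, (1 - g p) := Finset.prod_nonneg fun p hp => by
        have := h1 p (Finset.mem_insert_of_mem hp); linarith
      nlinarith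
    | succ b =>
      rw [tr_insert b hq]
      refine ⟨fun h => ?_, fun h => ?_⟩
      · have h2 := (ih' (b + 1)).1 h
        have h3 := (ih' b).2 (by
          rcases Nat.even_or_odd b with hb | hb
          · exact absurd h (by simpa [Nat.even_add_one] using hb)
          · exact hb)
        nlinarith [mul_le_mul_of_nonneg_left h3 hq0]
      · have h2 := (ih' (b + 1)).2 h
        have h3 := (ih' b).1 (by
          rcases Nat.even_or_odd b with hb | hb
          · exact hb
          · exact absurd h (by simpa [Nat.odd_add_one] using hb))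
        nlinarith [mul_le_mul_of_nonneg_left h3 hq0]

theorem prod_le_tr {P : Finset β} {g : β → ℝ} (h0 : ∀ p ∈ P, 0 ≤ g p) (h1 : ∀ p ∈ P, g p ≤ 1)
    {b : ℕ} (hb : Even b) : ∏ p ∈ P, (1 - g p) ≤ tr b P g := (bonferroni h0 h1 b).1 hb

theorem tr_le_add {P : Finset β} {g : β → ℝ} (h0 : ∀ p ∈ P, 0 ≤ g p) (h1 : ∀ p ∈ P, g p ≤ 1)
    {b : ℕ} (hb : Even b) : tr b P g ≤ ∏ p ∈ P, (1 - g p) + es (b + 1) P g := by
  have h := (bonferroni h0 h1 (b + 1)).2 hb.add_one
  rw [tr_succ, (hb.add_one).neg_one_pow] at h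
  linarith

theorem trp_zero (P : Finset β) (g : β → ℝ) : trp 0 P g = 1 := by simp [trp]

theorem trp_succ (b : ℕ) (P : Finset β) (g : β → ℝ) :
    trp (b + 1) P g = trp b P g + es (b + 1) P g := by
  simp [trp, Finset.sum_range_succ]

theorem trp_insert [DecidableEq β] (b : ℕ) {P : Finset β} {g : β → ℝ} {q : β} (hq : q ∉ P) :
    trp (b + 1) (insert q P) g = trp (b + 1) P g + g q * trp b P g := by
  induction b with
  | zero =>
    rw [trp_succ, trp_succ, trp_zero, trp_zero, es_insert hq]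
    simp
    ring
  | succ b ih =>
    rw [trp_succ, ih, es_insert hq, trp_succ (b + 1) P, trp_succ b P]
    ring

theorem trp_le {P : Finset β} {g : β → ℝ} (h : ∀ p ∈ P, 0 ≤ g p) (b : ℕ) :
    trp b P g ≤ (1 + ∑ p ∈ P, g p) ^ b := by
  classical
  induction P using Finset.induction_on generalizing b with
  | empty =>
    have : trp b (∅ : Finset β) g = 1 := by
      induction b with
      | zero => simp [trp]
      | succ b ih => rw [trp_succ, ih]; simp
    simp [this]
  | insert q P hq ih =>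
    have hP : ∀ p ∈ P, 0 ≤ g p := fun p hp => h p (Finset.mem_insert_of_mem hp)
    have hq0 : 0 ≤ g q := h q (Finset.mem_insert_self _ _)
    have hL : 0 ≤ ∑ p ∈ P, g p := Finset.sum_nonneg hP
    cases b with
    | zero => simp [trp_zero]
    | succ b =>
      rw [trp_insert b hq, Finset.sum_insert hq]
      have h1 := ih hP (b + 1)
      have h2 := mul_le_mul_of_nonneg_left (ih hP b) hq0
      refine (add_le_add h1 h2).trans ?_
      set L := ∑ p ∈ P, g p
      have h3 : (1 + L) ^ b ≤ (1 + (g q + L)) ^ b :=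
        pow_le_pow_left₀ (by linarith) (by linarith) b
      calc (1 + L) ^ (b + 1) + g q * (1 + L) ^ b = (1 + (g q + L)) * (1 + L) ^ b := by ring
        _ ≤ (1 + (g q + L)) * (1 + (g q + L)) ^ b :=
            mul_le_mul_of_nonneg_left h3 (by linarith)
        _ = (1 + (g q + L)) ^ (b + 1) := by ring

theorem es_le_pow {P : Finset β} {g : β → ℝ} (h : ∀ p ∈ P, 0 ≤ g p) (k : ℕ) :
    es k P g ≤ (∑ p ∈ P, g p) ^ k := by
  refine (es_le h k).trans ?_
  refine div_le_self (pow_nonneg (Finset.sum_nonneg h) k) ?_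
  exact_mod_cast Nat.succ_le_of_lt k.factorial_pos

/-- Hooley's product inequality. -/
theorem hooley [DecidableEq ι] (J : Finset ι) (x y e : ι → ℝ) (hx : ∀ j ∈ J, 0 ≤ x j)
    (hxy : ∀ j ∈ J, x j ≤ y j) (hye : ∀ j ∈ J, y j ≤ x j + e j) :
    ∏ j ∈ J, y j - ∑ l ∈ J, e l * ∏ j ∈ J.erase l, y j ≤ ∏ j ∈ J, x j := by
  induction J using Finset.induction_on with
  | empty => simp
  | insert i J hi ih =>
    have hx' : ∀ j ∈ J, 0 ≤ x j := fun j hj => hx j (Finset.mem_insert_of_mem hj)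
    have hxy' : ∀ j ∈ J, x j ≤ y j := fun j hj => hxy j (Finset.mem_insert_of_mem hj)
    have hye' : ∀ j ∈ J, y j ≤ x j + e j := fun j hj => hye j (Finset.mem_insert_of_mem hj)
    have ih' := ih hx' hxy' hye'
    have hy' : ∀ j ∈ J, 0 ≤ y j := fun j hj => (hx' j hj).trans (hxy' j hj)
    have hi0 := hx i (Finset.mem_insert_self _ _)
    have hi1 := hxy i (Finset.mem_insert_self _ _)
    have hi2 := hye i (Finset.mem_insert_self _ _)
    rw [Finset.prod_insert hi, Finset.prod_insert hi, Finset.sum_insert hi,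
      Finset.erase_insert hi]
    have h1 : ∑ l ∈ J, e l * ∏ j ∈ (insert i J).erase l, y j =
        y i * ∑ l ∈ J, e l * ∏ j ∈ J.erase l, y j := by
      rw [Finset.mul_sum]
      refine Finset.sum_congr rfl fun l hl => ?_
      have hil : i ≠ l := fun h => hi (h ▸ hl)
      rw [Finset.erase_insert_of_ne hil, Finset.prod_insert (by simp [hi])]
      ring
    rw [h1]
    set S := ∑ l ∈ J, e l * ∏ j ∈ J.erase l, y j with hS
    have hS0 : 0 ≤ S := Finset.sum_nonneg fun l hl => mul_nonneg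
      (by have := hxy' l hl; have := hye' l hl; linarith)
      (Finset.prod_nonneg fun j hj => hy' j (Finset.mem_of_mem_erase hj))
    have hY : 0 ≤ ∏ j ∈ J, y j := Finset.prod_nonneg hy'
    have h2 := mul_le_mul_of_nonneg_left ih' hi0
    nlinarith [mul_le_mul_of_nonneg_right hi1 hS0, mul_le_mul_of_nonneg_right hi2 hY]

/-- The sifting data. -/
structure Data (α β : Type*) where
  /-- the set to be sifted -/
  A : Finset α
  /-- `D p a`: the prime `p` sifts out `a` -/
  D : β → α → Prop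
  /-- the set of all primes -/
  U : Finset β
  /-- main term -/
  X : ℝ
  /-- densities -/
  g : β → ℝ
  /-- error terms -/
  ρ : β → ℝ
  hX : 0 ≤ X
  hg : ∀ p ∈ U, 0 ≤ g p
  hg1 : ∀ p ∈ U, g p < 1
  hρ : ∀ p ∈ U, 0 ≤ ρ p
  hr : ∀ T ⊆ U, |(open Classical in ((A.filter fun a => ∀ p ∈ T, D p a).card : ℝ)) -
    X * ∏ p ∈ T, g p| ≤ ∏ p ∈ T, ρ p

open Classical in
/-- Indicator of `D p a`. -/
noncomputable def ind (S : Data α β) (a : α) (p : β) : ℝ := if S.D p a then 1 else 0

theorem ind_nonneg (S : Data α β) (a : α) (p : β) : 0 ≤ ind S a p := by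
  unfold ind; split_ifs <;> norm_num

theorem ind_le_one (S : Data α β) (a : α) (p : β) : ind S a p ≤ 1 := by
  unfold ind; split_ifs <;> norm_num

open Classical in
theorem prod_ind (S : Data α β) (a : α) (T : Finset β) :
    ∏ p ∈ T, ind S a p = if ∀ p ∈ T, S.D p a then 1 else 0 := by
  split_ifs with h
  · exact Finset.prod_eq_one fun p hp => by simp [ind, h p hp]
  · push Not at h
    obtain ⟨p, hp, hD⟩ := h
    exact Finset.prod_eq_zero hp (by simp [ind, hD])

/-- Expansion of a product over blocks. -/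
theorem expand [DecidableEq β] (S : Data α β) (J : Finset ι) (F : ι → Finset (Finset β))
    (c : ι → Finset β → ℝ) (P : ι → Finset β) (hP : ∀ j ∈ J, P j ⊆ S.U)
    (hdisj : (J : Set ι).PairwiseDisjoint P) (hF : ∀ j ∈ J, ∀ T ∈ F j, T ⊆ P j)
    (T₀ : Finset β) (hT₀ : T₀ ⊆ S.U) (hT₀d : ∀ j ∈ J, Disjoint T₀ (P j)) :
    |∑ a ∈ S.A, (∏ p ∈ T₀, ind S a p) * ∏ j ∈ J, ∑ T ∈ F j, c j T * ∏ p ∈ T, ind S a p -
      S.X * (∏ p ∈ T₀, S.g p) * ∏ j ∈ J, ∑ T ∈ F j, c j T * ∏ p ∈ T, S.g p| ≤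
      (∏ p ∈ T₀, S.ρ p) * ∏ j ∈ J, ∑ T ∈ F j, |c j T| * ∏ p ∈ T, S.ρ p := by
  classical
  induction J using Finset.induction_on generalizing T₀ with
  | empty =>
    simp only [Finset.prod_empty, mul_one]
    have h := S.hr T₀ hT₀
    have h2 : ∑ a ∈ S.A, ∏ p ∈ T₀, ind S a p =
        ((S.A.filter fun a => ∀ p ∈ T₀, S.D p a).card : ℝ) := by
      simp_rw [prod_ind]
      rw [Finset.sum_ite, Finset.sum_const_zero, add_zero, Finset.sum_const, nsmul_eq_mul, mul_one]
    rw [h2]
    convert h using 4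
  | insert i J hi ih =>
    have hP' : ∀ j ∈ J, P j ⊆ S.U := fun j hj => hP j (Finset.mem_insert_of_mem hj)
    have hd' : (J : Set ι).PairwiseDisjoint P :=
      hdisj.subset (by intro x hx; exact Finset.mem_coe.2 (Finset.mem_insert_of_mem hx))
    have hF' : ∀ j ∈ J, ∀ T ∈ F j, T ⊆ P j := fun j hj => hF j (Finset.mem_insert_of_mem hj)
    have hPi := hP i (Finset.mem_insert_self _ _)
    have hFi := hF i (Finset.mem_insert_self _ _)
    have hT₀i := hT₀d i (Finset.mem_insert_self _ _)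
    have hTd : ∀ T ∈ F i, Disjoint T₀ T := fun T hT =>
      Finset.disjoint_of_subset_right (hFi T hT) hT₀i
    have key : ∀ T ∈ F i, |∑ a ∈ S.A, (∏ p ∈ T₀ ∪ T, ind S a p) *
        ∏ j ∈ J, ∑ T ∈ F j, c j T * ∏ p ∈ T, ind S a p -
        S.X * (∏ p ∈ T₀ ∪ T, S.g p) * ∏ j ∈ J, ∑ T ∈ F j, c j T * ∏ p ∈ T, S.g p| ≤
        (∏ p ∈ T₀ ∪ T, S.ρ p) * ∏ j ∈ J, ∑ T ∈ F j, |c j T| * ∏ p ∈ T, S.ρ p := by
      intro T hT
      refine ih hP' hd' hF' (T₀ ∪ T) (Finset.union_subset hT₀ ((hFi T hT).trans hPi)) ?_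
      intro j hj
      rw [Finset.disjoint_union_left]
      refine ⟨hT₀d j (Finset.mem_insert_of_mem hj), ?_⟩
      have hij : i ≠ j := fun h => hi (h ▸ hj)
      exact Finset.disjoint_of_subset_left (hFi T hT)
        (hdisj (Finset.mem_coe.2 (Finset.mem_insert_self _ _))
          (Finset.mem_coe.2 (Finset.mem_insert_of_mem hj)) hij)
    have e1 : ∑ a ∈ S.A, (∏ p ∈ T₀, ind S a p) *
        ∏ j ∈ insert i J, ∑ T ∈ F j, c j T * ∏ p ∈ T, ind S a p =
        ∑ T ∈ F i, c i T * ∑ a ∈ S.A, (∏ p ∈ T₀ ∪ T, ind S a p) *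
        ∏ j ∈ J, ∑ T ∈ F j, c j T * ∏ p ∈ T, ind S a p := by
      simp_rw [Finset.mul_sum]
      rw [Finset.sum_comm]
      refine Finset.sum_congr rfl fun a _ => ?_
      rw [Finset.prod_insert hi, Finset.sum_mul, Finset.mul_sum]
      refine Finset.sum_congr rfl fun T hT => ?_
      rw [Finset.prod_union (hTd T hT)]
      ring
    have e2 : S.X * (∏ p ∈ T₀, S.g p) *
        ∏ j ∈ insert i J, ∑ T ∈ F j, c j T * ∏ p ∈ T, S.g p =
        ∑ T ∈ F i, c i T * (S.X * (∏ p ∈ T₀ ∪ T, S.g p) *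
        ∏ j ∈ J, ∑ T ∈ F j, c j T * ∏ p ∈ T, S.g p) := by
      rw [Finset.prod_insert hi, Finset.sum_mul, Finset.mul_sum]
      refine Finset.sum_congr rfl fun T hT => ?_
      rw [Finset.prod_union (hTd T hT)]
      ring
    have e3 : (∏ p ∈ T₀, S.ρ p) *
        ∏ j ∈ insert i J, ∑ T ∈ F j, |c j T| * ∏ p ∈ T, S.ρ p =
        ∑ T ∈ F i, |c i T| * ((∏ p ∈ T₀ ∪ T, S.ρ p) *
        ∏ j ∈ J, ∑ T ∈ F j, |c j T| * ∏ p ∈ T, S.ρ p) := by
      rw [Finset.prod_insert hi, Finset.sum_mul, Finset.mul_sum]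
      refine Finset.sum_congr rfl fun T hT => ?_
      rw [Finset.prod_union (hTd T hT)]
      ring
    rw [e1, e2, e3, ← Finset.sum_sub_distrib]
    refine (Finset.abs_sum_le_sum_abs _ _).trans (Finset.sum_le_sum fun T hT => ?_)
    rw [← mul_sub, abs_mul]
    exact mul_le_mul_of_nonneg_left (key T hT) (abs_nonneg _)

/-- The subsets of `P` with at most `b` elements. -/
def small (b : ℕ) (P : Finset β) : Finset (Finset β) := P.powerset.filter fun T => T.card ≤ b

theorem small_subset {b : ℕ} {P T : Finset β} (h : T ∈ small b P) : T ⊆ P :=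
  Finset.mem_powerset.1 (Finset.mem_filter.1 h).1

theorem sum_small (b : ℕ) (P : Finset β) (f : Finset β → ℝ) :
    ∑ T ∈ small b P, f T = ∑ i ∈ range (b + 1), ∑ T ∈ P.powersetCard i, f T := by
  classical
  rw [← Finset.sum_fiberwise_of_maps_to (s := small b P) (t := range (b + 1))
    (g := fun T => T.card)]
  · refine Finset.sum_congr rfl fun i hi => ?_
    refine Finset.sum_congr ?_ fun _ _ => rfl
    ext T
    simp only [small, Finset.mem_filter, Finset.mem_powerset, Finset.mem_powersetCard]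
    have := Finset.mem_range.1 hi
    constructor
    · rintro ⟨⟨h1, _⟩, h3⟩; exact ⟨h1, h3⟩
    · rintro ⟨h1, h3⟩; exact ⟨⟨h1, by omega⟩, h3⟩
  · intro T hT
    have := (Finset.mem_filter.1 hT).2
    exact Finset.mem_range.2 (by omega)

theorem sum_small_tr (b : ℕ) (P : Finset β) (g : β → ℝ) :
    ∑ T ∈ small b P, (-1) ^ T.card * ∏ p ∈ T, g p = tr b P g := by
  rw [sum_small]
  refine Finset.sum_congr rfl fun i _ => ?_
  rw [es, Finset.mul_sum]
  exact Finset.sum_congr rfl fun T hT => by rw [(Finset.mem_powersetCard.1 hT).2]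

theorem sum_small_trp (b : ℕ) (P : Finset β) (g : β → ℝ) :
    ∑ T ∈ small b P, |(-1) ^ T.card| * ∏ p ∈ T, g p = trp b P g := by
  rw [sum_small]
  refine Finset.sum_congr rfl fun i _ => ?_
  rw [es]
  exact Finset.sum_congr rfl fun T _ => by simp

section main

variable [DecidableEq ι] [DecidableEq β] (S : Data α β) (J : Finset ι) (P : ι → Finset β)
  (hP : ∀ j ∈ J, P j ⊆ S.U) (hdisj : (J : Set ι).PairwiseDisjoint P) (b : ι → ℕ)

include hP hdisj

omit [DecidableEq ι] in
theorem expand_tr :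
    |∑ a ∈ S.A, ∏ j ∈ J, tr (b j) (P j) (ind S a) - S.X * ∏ j ∈ J, tr (b j) (P j) S.g| ≤
      ∏ j ∈ J, trp (b j) (P j) S.ρ := by
  have h := expand S J (fun j => small (b j) (P j)) (fun _ T => (-1) ^ T.card) P hP hdisj
    (fun j _ T hT => small_subset hT) ∅ (by simp) (by simp)
  simp only [Finset.prod_empty, one_mul, mul_one] at h
  simp_rw [sum_small_tr, sum_small_trp] at h
  exact h

theorem expand_es (l : ι) (hl : l ∈ J) (k : ℕ) :
    |∑ a ∈ S.A, es k (P l) (ind S a) * ∏ j ∈ J.erase l, tr (b j) (P j) (ind S a) -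
      S.X * (es k (P l) S.g * ∏ j ∈ J.erase l, tr (b j) (P j) S.g)| ≤
      es k (P l) S.ρ * ∏ j ∈ J.erase l, trp (b j) (P j) S.ρ := by
  have key : ∀ T ∈ (P l).powersetCard k,
      |∑ a ∈ S.A, (∏ p ∈ T, ind S a p) * ∏ j ∈ J.erase l, tr (b j) (P j) (ind S a) -
      S.X * (∏ p ∈ T, S.g p) * ∏ j ∈ J.erase l, tr (b j) (P j) S.g| ≤
      (∏ p ∈ T, S.ρ p) * ∏ j ∈ J.erase l, trp (b j) (P j) S.ρ := by
    intro T hT
    have hTP := (Finset.mem_powersetCard.1 hT).1
    have h := expand S (J.erase l) (fun j => small (b j) (P j)) (fun _ T => (-1) ^ T.card) P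
      (fun j hj => hP j (Finset.mem_of_mem_erase hj))
      (hdisj.subset (by
        intro x hx
        exact Finset.mem_coe.2 (Finset.mem_of_mem_erase (Finset.mem_coe.1 hx))))
      (fun j _ T hT => small_subset hT) T (hTP.trans (hP l hl))
      (fun j hj => Finset.disjoint_of_subset_left hTP
        (hdisj (Finset.mem_coe.2 hl) (Finset.mem_coe.2 (Finset.mem_of_mem_erase hj))
          (Finset.ne_of_mem_erase hj).symm))
    simp_rw [sum_small_tr, sum_small_trp] at h
    exact h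
  have e1 : ∑ a ∈ S.A, es k (P l) (ind S a) * ∏ j ∈ J.erase l, tr (b j) (P j) (ind S a) =
      ∑ T ∈ (P l).powersetCard k,
        ∑ a ∈ S.A, (∏ p ∈ T, ind S a p) * ∏ j ∈ J.erase l, tr (b j) (P j) (ind S a) := by
    rw [Finset.sum_comm]
    refine Finset.sum_congr rfl fun a _ => ?_
    rw [es, Finset.sum_mul]
  have e2 : S.X * (es k (P l) S.g * ∏ j ∈ J.erase l, tr (b j) (P j) S.g) =
      ∑ T ∈ (P l).powersetCard k,
        S.X * (∏ p ∈ T, S.g p) * ∏ j ∈ J.erase l, tr (b j) (P j) S.g := by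
    rw [es, Finset.sum_mul, Finset.mul_sum]
    exact Finset.sum_congr rfl fun T _ => by ring
  have e3 : es k (P l) S.ρ * ∏ j ∈ J.erase l, trp (b j) (P j) S.ρ =
      ∑ T ∈ (P l).powersetCard k, (∏ p ∈ T, S.ρ p) * ∏ j ∈ J.erase l, trp (b j) (P j) S.ρ := by
    rw [es, Finset.sum_mul]
  rw [e1, e2, e3, ← Finset.sum_sub_distrib]
  exact (Finset.abs_sum_le_sum_abs _ _).trans (Finset.sum_le_sum key)

omit [DecidableEq ι] [DecidableEq β] hP hdisj in
open Classical in
theorem prod_prod_ind (a : α) :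
    ∏ j ∈ J, ∏ p ∈ P j, (1 - ind S a p) = if ∀ j ∈ J, ∀ p ∈ P j, ¬ S.D p a then 1 else 0 := by
  split_ifs with h
  · exact Finset.prod_eq_one fun j hj => Finset.prod_eq_one fun p hp => by
      simp [ind, h j hj p hp]
  · push Not at h
    obtain ⟨j, hj, p, hp, hD⟩ := h
    exact Finset.prod_eq_zero hj (Finset.prod_eq_zero hp (by simp [ind, hD]))

open Classical in
/-- Number of unsifted elements. -/
noncomputable def sift (S : Data α β) (J : Finset ι) (P : ι → Finset β) : ℝ :=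
  ((S.A.filter fun a => ∀ j ∈ J, ∀ p ∈ P j, ¬ S.D p a).card : ℝ)

omit [DecidableEq ι] [DecidableEq β] hP hdisj in
theorem sift_eq : sift S J P = ∑ a ∈ S.A, ∏ j ∈ J, ∏ p ∈ P j, (1 - ind S a p) := by
  classical
  simp_rw [prod_prod_ind]
  rw [Finset.sum_ite, Finset.sum_const_zero, add_zero, Finset.sum_const, nsmul_eq_mul, mul_one,
    sift]

omit [DecidableEq ι] in
/-- Basic upper bound. -/
theorem upper (hb : ∀ j ∈ J, Even (b j)) :
    sift S J P ≤ S.X * ∏ j ∈ J, tr (b j) (P j) S.g + ∏ j ∈ J, trp (b j) (P j) S.ρ := by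
  have h := (abs_le.1 (expand_tr S J P hP hdisj b)).2
  have h2 : sift S J P ≤ ∑ a ∈ S.A, ∏ j ∈ J, tr (b j) (P j) (ind S a) := by
    rw [sift_eq]
    refine Finset.sum_le_sum fun a _ => Finset.prod_le_prod (fun j _ => ?_) fun j hj => ?_
    · exact Finset.prod_nonneg fun p _ => by have := ind_le_one S a p; linarith
    · exact prod_le_tr (fun p _ => ind_nonneg S a p) (fun p _ => ind_le_one S a p) (hb j hj)
  linarith

/-- Basic lower bound. -/
theorem lower (hb : ∀ j ∈ J, Even (b j)) :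
    S.X * (∏ j ∈ J, tr (b j) (P j) S.g -
      ∑ l ∈ J, es (b l + 1) (P l) S.g * ∏ j ∈ J.erase l, tr (b j) (P j) S.g) -
    (∏ j ∈ J, trp (b j) (P j) S.ρ +
      ∑ l ∈ J, es (b l + 1) (P l) S.ρ * ∏ j ∈ J.erase l, trp (b j) (P j) S.ρ) ≤
    sift S J P := by
  have h1 := (abs_le.1 (expand_tr S J P hP hdisj b)).1
  have h2 : ∑ a ∈ S.A, (∏ j ∈ J, tr (b j) (P j) (ind S a) -
      ∑ l ∈ J, es (b l + 1) (P l) (ind S a) * ∏ j ∈ J.erase l, tr (b j) (P j) (ind S a)) ≤
      sift S J P := by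
    rw [sift_eq]
    refine Finset.sum_le_sum fun a _ => ?_
    refine hooley J _ _ _ (fun j _ => ?_) (fun j hj => ?_) fun j hj => ?_
    · exact Finset.prod_nonneg fun p _ => by have := ind_le_one S a p; linarith
    · exact prod_le_tr (fun p _ => ind_nonneg S a p) (fun p _ => ind_le_one S a p) (hb j hj)
    · exact tr_le_add (fun p _ => ind_nonneg S a p) (fun p _ => ind_le_one S a p) (hb j hj)
  rw [Finset.sum_sub_distrib, Finset.sum_comm] at h2
  have h3 : ∑ l ∈ J, ∑ a ∈ S.A, es (b l + 1) (P l) (ind S a) *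
      ∏ j ∈ J.erase l, tr (b j) (P j) (ind S a) ≤
      S.X * ∑ l ∈ J, es (b l + 1) (P l) S.g * ∏ j ∈ J.erase l, tr (b j) (P j) S.g +
      ∑ l ∈ J, es (b l + 1) (P l) S.ρ * ∏ j ∈ J.erase l, trp (b j) (P j) S.ρ := by
    rw [Finset.mul_sum, ← Finset.sum_add_distrib]
    refine Finset.sum_le_sum fun l hl => ?_
    have := (abs_le.1 (expand_es S J P hP hdisj b l hl (b l + 1))).2
    linarith
  rw [mul_sub]
  linarith

omit [DecidableEq ι] in
/-- Upper bound in terms of `V = ∏ (1 - g p)`. -/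
theorem upper' (hb : ∀ j ∈ J, Even (b j)) :
    sift S J P ≤ S.X * (∏ j ∈ J, ∏ p ∈ P j, (1 - S.g p)) *
        Real.exp (∑ l ∈ J, es (b l + 1) (P l) S.g / ∏ p ∈ P l, (1 - S.g p)) +
      ∏ j ∈ J, (1 + ∑ p ∈ P j, S.ρ p) ^ b j := by
  refine (upper S J P hP hdisj b hb).trans (add_le_add ?_ ?_)
  · rw [mul_assoc]
    refine mul_le_mul_of_nonneg_left ?_ S.hX
    rw [Real.exp_sum, ← Finset.prod_mul_distrib]
    refine Finset.prod_le_prod (fun j hj => ?_) fun j hj => ?_
    · have h1 : 0 ≤ ∏ p ∈ P j, (1 - S.g p) := Finset.prod_nonneg fun p hp => by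
        have := S.hg1 p (hP j hj hp); linarith
      exact h1.trans (prod_le_tr (fun p hp => S.hg p (hP j hj hp))
        (fun p hp => (S.hg1 p (hP j hj hp)).le) (hb j hj))
    · have hV : 0 < ∏ p ∈ P j, (1 - S.g p) := Finset.prod_pos fun p hp => by
        have := S.hg1 p (hP j hj hp); linarith
      have h1 := tr_le_add (fun p hp => S.hg p (hP j hj hp))
        (fun p hp => (S.hg1 p (hP j hj hp)).le) (hb j hj)
      refine h1.trans ?_
      have h2 := Real.add_one_le_exp (es (b j + 1) (P j) S.g / ∏ p ∈ P j, (1 - S.g p))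
      have h3 := mul_le_mul_of_nonneg_left h2 hV.le
      rw [mul_add, mul_one, mul_div_cancel₀ _ hV.ne'] at h3
      linarith
  · refine Finset.prod_le_prod (fun j hj => ?_) fun j hj =>
      trp_le (fun p hp => S.hρ p (hP j hj hp)) (b j)
    exact Finset.sum_nonneg fun i _ => es_nonneg fun p hp => S.hρ p (hP j hj hp)

/-- Lower bound in terms of `V = ∏ (1 - g p)`. -/
theorem lower' (hb : ∀ j ∈ J, Even (b j)) (θ : ℝ)
    (hθ : ∑ l ∈ J, es (b l + 1) (P l) S.g / ∏ p ∈ P l, (1 - S.g p) ≤ θ) (hθ1 : θ ≤ 1) :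
    S.X * (∏ j ∈ J, ∏ p ∈ P j, (1 - S.g p)) * (1 - θ) -
      (∏ j ∈ J, (1 + ∑ p ∈ P j, S.ρ p) ^ b j) * (1 + ∑ l ∈ J, (1 + ∑ p ∈ P l, S.ρ p)) ≤
    sift S J P := by
  refine le_trans ?_ (lower S J P hP hdisj b hb)
  have hg := fun j hj p hp => S.hg p (hP j hj hp)
  have hg1 := fun j hj p hp => (S.hg1 p (hP j hj hp)).le
  have hρ := fun j hj p hp => S.hρ p (hP j hj hp)
  have hV : ∀ j ∈ J, 0 < ∏ p ∈ P j, (1 - S.g p) := fun j hj => Finset.prod_pos fun p hp => by
    have := S.hg1 p (hP j hj hp); linarith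
  have htr : ∀ j ∈ J, ∏ p ∈ P j, (1 - S.g p) ≤ tr (b j) (P j) S.g := fun j hj =>
    prod_le_tr (hg j hj) (hg1 j hj) (hb j hj)
  have htr0 : ∀ j ∈ J, 0 < tr (b j) (P j) S.g := fun j hj => (hV j hj).trans_le (htr j hj)
  refine sub_le_sub ?_ ?_
  · rw [mul_assoc]
    refine mul_le_mul_of_nonneg_left ?_ S.hX
    have h1 : ∑ l ∈ J, es (b l + 1) (P l) S.g * ∏ j ∈ J.erase l, tr (b j) (P j) S.g ≤
        θ * ∏ j ∈ J, tr (b j) (P j) S.g := by
      calc ∑ l ∈ J, es (b l + 1) (P l) S.g * ∏ j ∈ J.erase l, tr (b j) (P j) S.g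
          ≤ ∑ l ∈ J, es (b l + 1) (P l) S.g / (∏ p ∈ P l, (1 - S.g p)) *
            ∏ j ∈ J, tr (b j) (P j) S.g := by
            refine Finset.sum_le_sum fun l hl => ?_
            rw [← Finset.mul_prod_erase J _ hl, ← mul_assoc]
            refine mul_le_mul_of_nonneg_right ?_ (Finset.prod_nonneg fun j hj =>
              (htr0 j (Finset.mem_of_mem_erase hj)).le)
            have h2 : 0 ≤ es (b l + 1) (P l) S.g := es_nonneg (hg l hl)
            rw [div_mul_eq_mul_div, le_div_iff₀ (hV l hl)]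
            exact mul_le_mul_of_nonneg_left (htr l hl) h2
        _ = (∑ l ∈ J, es (b l + 1) (P l) S.g / (∏ p ∈ P l, (1 - S.g p))) *
            ∏ j ∈ J, tr (b j) (P j) S.g := by rw [Finset.sum_mul]
        _ ≤ θ * ∏ j ∈ J, tr (b j) (P j) S.g :=
            mul_le_mul_of_nonneg_right hθ (Finset.prod_nonneg fun j hj => (htr0 j hj).le)
    have h3 : ∏ j ∈ J, ∏ p ∈ P j, (1 - S.g p) ≤ ∏ j ∈ J, tr (b j) (P j) S.g :=
      Finset.prod_le_prod (fun j hj => (hV j hj).le) htr
    have h4 := mul_le_mul_of_nonneg_right h3 (sub_nonneg.2 hθ1)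
    nlinarith
  · have hR : ∀ j ∈ J, 0 ≤ ∑ p ∈ P j, S.ρ p := fun j hj => Finset.sum_nonneg (hρ j hj)
    have htp : ∀ j ∈ J, trp (b j) (P j) S.ρ ≤ (1 + ∑ p ∈ P j, S.ρ p) ^ b j := fun j hj =>
      trp_le (hρ j hj) (b j)
    have htp0 : ∀ j ∈ J, 0 ≤ trp (b j) (P j) S.ρ := fun j hj =>
      Finset.sum_nonneg fun i _ => es_nonneg (hρ j hj)
    rw [mul_add, mul_one, Finset.mul_sum]
    refine add_le_add (Finset.prod_le_prod htp0 htp) (Finset.sum_le_sum fun l hl => ?_)
    rw [← Finset.mul_prod_erase J _ hl]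
    have h5 : es (b l + 1) (P l) S.ρ ≤
        (1 + ∑ p ∈ P l, S.ρ p) ^ b l * (1 + ∑ p ∈ P l, S.ρ p) := by
      rw [← pow_succ]
      refine (es_le_pow (hρ l hl) _).trans ?_
      exact pow_le_pow_left₀ (hR l hl) (by linarith [hR l hl]) _
    calc es (b l + 1) (P l) S.ρ * ∏ j ∈ J.erase l, trp (b j) (P j) S.ρ
        ≤ ((1 + ∑ p ∈ P l, S.ρ p) ^ b l * (1 + ∑ p ∈ P l, S.ρ p)) *
          ∏ j ∈ J.erase l, (1 + ∑ p ∈ P j, S.ρ p) ^ b j := by
          refine mul_le_mul h5 (Finset.prod_le_prod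
            (fun j hj => htp0 j (Finset.mem_of_mem_erase hj))
            (fun j hj => htp j (Finset.mem_of_mem_erase hj)))
            (Finset.prod_nonneg fun j hj => htp0 j (Finset.mem_of_mem_erase hj)) ?_
          have := hR l hl
          positivity
      _ = (1 + ∑ p ∈ P l, S.ρ p) ^ b l * (∏ j ∈ J.erase l, (1 + ∑ p ∈ P j, S.ρ p) ^ b j) *
          (1 + ∑ p ∈ P l, S.ρ p) := by ring

end main

end Pool.Agent.Sieve8
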