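import Pool.Agent.Sieve8.BrunHooley

/-!
# Sieving an interval by residue classes modulo primes
-/

open Finset

namespace Pool.Agent.Sieve8

/-- One residue class in an interval. -/
theorem count_class (M N d r : ℕ) (hd : 0 < d) :
    |(((Finset.Ico M (M + N)).filter fun n => n % d = r % d).card : ℝ) - N / d| ≤ 1 := by
  have h := Nat.Ico_filter_modEq_card M (M + N) hd r
  have hd' : (0 : ℚ) < d := by exact_mod_cast hd
  set a : ℚ := (((M + N : ℕ) : ℚ) - r) / d with ha
  set b : ℚ := ((M : ℚ) - r) / d with hb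
  have hab : a = b + N / d := by
    rw [ha, hb]; push_cast; ring
  have hN : (0 : ℚ) ≤ N / d := by positivity
  have hle : b ≤ a := by rw [hab]; linarith
  have hceil : ⌈b⌉ ≤ ⌈a⌉ := Int.ceil_mono hle
  rw [max_eq_left (by omega)] at h
  have h1 : (((Finset.Ico M (M + N)).filter fun n => n % d = r % d).card : ℤ) = ⌈a⌉ - ⌈b⌉ := by
    rw [← h]
    rfl
  have h2 : (((Finset.Ico M (M + N)).filter fun n => n % d = r % d).card : ℚ) =
      ⌈a⌉ - ⌈b⌉ := by exact_mod_cast h1
  have h3 : |(((Finset.Ico M (M + N)).filter fun n => n % d = r % d).card : ℚ) - N / d| ≤ 1 := by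
    rw [h2, abs_le]
    have e1 := Int.le_ceil a
    have e2 := Int.ceil_lt_add_one a
    have e3 := Int.le_ceil b
    have e4 := Int.ceil_lt_add_one b
    constructor <;> linarith
  have h4 : ((|(((Finset.Ico M (M + N)).filter fun n => n % d = r % d).card : ℚ) - N / d| : ℚ) : ℝ)
      ≤ ((1 : ℚ) : ℝ) := Rat.cast_le.2 h3
  push_cast at h4
  exact h4

/-- Residues modulo the product. -/
theorem exists_residues (Ω : ℕ → Finset ℕ) (T : Finset ℕ) (hT : ∀ p ∈ T, p.Prime)
    (hΩ : ∀ p ∈ T, ∀ r ∈ Ω p, r < p) :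
    ∃ R : Finset ℕ, (∀ r ∈ R, r < ∏ p ∈ T, p) ∧ R.card = ∏ p ∈ T, (Ω p).card ∧
      ∀ n : ℕ, (∀ p ∈ T, n % p ∈ Ω p) ↔ n % (∏ p ∈ T, p) ∈ R := by
  induction T using Finset.induction_on with
  | empty =>
    refine ⟨{0}, by simp, by simp, fun n => ?_⟩
    simp [Nat.mod_one]
  | insert q T hq ih =>
    obtain ⟨R, hR1, hR2, hR3⟩ := ih (fun p hp => hT p (Finset.mem_insert_of_mem hp))
      (fun p hp => hΩ p (Finset.mem_insert_of_mem hp))
    have hqp : q.Prime := hT q (Finset.mem_insert_self _ _)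
    have hcop : Nat.Coprime q (∏ p ∈ T, p) := by
      refine Nat.Coprime.prod_right fun p hp => ?_
      rw [Nat.coprime_primes hqp (hT p (Finset.mem_insert_of_mem hp))]
      rintro rfl
      exact hq hp
    set d := ∏ p ∈ T, p with hd
    have hd0 : d ≠ 0 := Finset.prod_ne_zero_iff.2 fun p hp =>
      (hT p (Finset.mem_insert_of_mem hp)).ne_zero
    have hq0 : q ≠ 0 := hqp.ne_zero
    rw [Finset.prod_insert hq, Finset.prod_insert hq]
    refine ⟨(Finset.range (q * d)).filter fun n => n % q ∈ Ω q ∧ n % d ∈ R, ?_, ?_, ?_⟩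
    · intro r hr
      exact Finset.mem_range.1 (Finset.mem_filter.1 hr).1
    · rw [← hR2, ← Finset.card_product]
      refine Finset.card_nbij' (fun n => (n % q, n % d))
        (fun x => (Nat.chineseRemainder hcop x.1 x.2 : ℕ)) ?_ ?_ ?_ ?_
      · intro n hn
        have := Finset.mem_filter.1 (Finset.mem_coe.1 hn)
        exact Finset.mem_coe.2 (Finset.mem_product.2 this.2)
      · rintro ⟨x, y⟩ hxy
        have hxy := Finset.mem_product.1 (Finset.mem_coe.1 hxy)
        simp only at hxy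
        refine Finset.mem_coe.2 (Finset.mem_filter.2 ⟨?_, ?_, ?_⟩)
        · exact Finset.mem_range.2 (Nat.chineseRemainder_lt_mul hcop x y hq0 hd0)
        · have h1 := (Nat.chineseRemainder hcop x y).2.1
          have hx : x < q := hΩ q (Finset.mem_insert_self _ _) x hxy.1
          have : (Nat.chineseRemainder hcop x y : ℕ) % q = x := by
            rw [h1, Nat.mod_eq_of_lt hx]
          simp only
          rw [this]; exact hxy.1
        · have h1 := (Nat.chineseRemainder hcop x y).2.2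
          have hy : y < d := hR1 y hxy.2
          have : (Nat.chineseRemainder hcop x y : ℕ) % d = y := by
            rw [h1, Nat.mod_eq_of_lt hy]
          simp only
          rw [this]; exact hxy.2
      · intro n hn
        have hn' := Finset.mem_filter.1 (Finset.mem_coe.1 hn)
        have hlt := Finset.mem_range.1 hn'.1
        simp only
        have h1 := Nat.chineseRemainder_modEq_unique hcop
          (a := n % q) (b := n % d) (z := n) (Nat.mod_modEq n q).symm (Nat.mod_modEq n d).symm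
        have h2 := Nat.chineseRemainder_lt_mul hcop (n % q) (n % d) hq0 hd0
        rw [Nat.ModEq, Nat.mod_eq_of_lt hlt, Nat.mod_eq_of_lt h2] at h1
        exact h1.symm
      · rintro ⟨x, y⟩ hxy
        have hxy := Finset.mem_product.1 (Finset.mem_coe.1 hxy)
        simp only at hxy
        have h1 := (Nat.chineseRemainder hcop x y).2.1
        have hx : x < q := hΩ q (Finset.mem_insert_self _ _) x hxy.1
        have h2 := (Nat.chineseRemainder hcop x y).2.2
        have hy : y < d := hR1 y hxy.2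
        ext
        · simp only
          rw [h1, Nat.mod_eq_of_lt hx]
        · simp only
          rw [h2, Nat.mod_eq_of_lt hy]
    · intro n
      rw [Finset.forall_mem_insert, hR3 n, Finset.mem_filter]
      have e1 : n % (q * d) % q = n % q := Nat.mod_mod_of_dvd n (Dvd.intro _ rfl)
      have e2 : n % (q * d) % d = n % d := Nat.mod_mod_of_dvd n (Dvd.intro_left _ rfl)
      rw [e1, e2]
      constructor
      · intro h
        exact ⟨Finset.mem_range.2 (Nat.mod_lt _ (Nat.pos_of_ne_zero (mul_ne_zero hq0 hd0))), h⟩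
      · intro h; exact h.2

theorem interval_count (Ω : ℕ → Finset ℕ) (T : Finset ℕ) (hT : ∀ p ∈ T, p.Prime)
    (hΩ : ∀ p ∈ T, ∀ r ∈ Ω p, r < p) (M N : ℕ) :
    |(((Finset.Ico M (M + N)).filter fun n => ∀ p ∈ T, n % p ∈ Ω p).card : ℝ) -
      N * ∏ p ∈ T, (((Ω p).card : ℝ) / p)| ≤ ∏ p ∈ T, ((Ω p).card : ℝ) := by
  obtain ⟨R, hR1, hR2, hR3⟩ := exists_residues Ω T hT hΩ
  set d := ∏ p ∈ T, p with hd
  have hd0 : 0 < d := Finset.prod_pos fun p hp => (hT p hp).pos
  have h1 : (((Finset.Ico M (M + N)).filter fun n => ∀ p ∈ T, n % p ∈ Ω p).card : ℝ) =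
      ∑ r ∈ R, (((Finset.Ico M (M + N)).filter fun n => n % d = r % d).card : ℝ) := by
    rw [← Nat.cast_sum]
    congr 1
    rw [← Finset.card_biUnion]
    · congr 1
      ext n
      simp only [Finset.mem_filter, Finset.mem_biUnion]
      rw [hR3 n]
      constructor
      · rintro ⟨h1, h2⟩
        exact ⟨n % d, h2, h1, (Nat.mod_mod n d).symm⟩
      · rintro ⟨r, hr, h1, h2⟩
        rw [Nat.mod_eq_of_lt (hR1 r hr)] at h2
        exact ⟨h1, h2 ▸ hr⟩
    · intro r hr s hs hrs
      simp only [Function.onFun]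
      rw [Finset.disjoint_left]
      intro n hn hn'
      have h2 := (Finset.mem_filter.1 hn).2
      have h3 := (Finset.mem_filter.1 hn').2
      rw [Nat.mod_eq_of_lt (hR1 r hr)] at h2
      rw [Nat.mod_eq_of_lt (hR1 s hs)] at h3
      exact hrs (h2.symm.trans h3)
  have h2 : (N : ℝ) * ∏ p ∈ T, (((Ω p).card : ℝ) / p) = ∑ r ∈ R, (N : ℝ) / d := by
    rw [Finset.sum_const, nsmul_eq_mul, hR2, Finset.prod_div_distrib, hd]
    push_cast
    ring
  have h3 : ∏ p ∈ T, ((Ω p).card : ℝ) = ∑ r ∈ R, (1 : ℝ) := by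
    rw [Finset.sum_const, nsmul_eq_mul, hR2, mul_one]
    push_cast
    rfl
  rw [h1, h2, h3, ← Finset.sum_sub_distrib]
  exact (Finset.abs_sum_le_sum_abs _ _).trans
    (Finset.sum_le_sum fun r _ => count_class M N d r hd0)

/-- Sieve data for an interval `[M, M + N)` and residue sets `Ω p`, `p ∈ U`. -/
noncomputable def ivl (Ω : ℕ → Finset ℕ) (U : Finset ℕ) (hU : ∀ p ∈ U, p.Prime)
    (hΩ : ∀ p ∈ U, ∀ r ∈ Ω p, r < p) (hΩ' : ∀ p ∈ U, (Ω p).card < p) (M N : ℕ) :
    Data ℕ ℕ where
  A := Finset.Ico M (M + N)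
  D p n := n % p ∈ Ω p
  U := U
  X := N
  g p := ((Ω p).card : ℝ) / p
  ρ p := (Ω p).card
  hX := Nat.cast_nonneg _
  hg p _ := by positivity
  hg1 p hp := by
    rw [div_lt_one (by exact_mod_cast (hU p hp).pos)]
    exact_mod_cast hΩ' p hp
  hρ p _ := Nat.cast_nonneg _
  hr T hT := by
    have h := interval_count Ω T (fun p hp => hU p (hT hp)) (fun p hp => hΩ p (hT hp)) M N
    convert h using 5
    ext n
    simp only [Finset.mem_filter]

end Pool.Agent.Sieve8
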